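import Pool.Agent.Helper15.AF.Goals2
import Pool.Agent.Helper89.JT.RNJ

/-!
# Project AF (MP_34c247_lc): packet DET
-/

namespace Pool.Agent.Helper54.AF

open Pool.Agent.Helper15.AF
open Pool.Agent.Helper81.CC Pool.Agent.Helper51.ZP Pool.Agent.Helper78.DT Pool.Agent.Helper78.JT
open scoped Classical

variable {n P r ρ : ℕ}

/-- the coins moved to the cells -/
noncomputable def mvx (π : Fin n → Fin P) (U : Set (Fin n)) (x : Fin n → Bool) (p : Fin P) :
    Bool :=
  if h : ∃ v ∈ U, π v = p then x h.choose else false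

theorem mvx_apply {π : Fin n → Fin P} {U : Set (Fin n)} (hπ : Set.InjOn π U) (x : Fin n → Bool)
    {v : Fin n} (hv : v ∈ U) : mvx π U x (π v) = x v := by
  have h : ∃ v' ∈ U, π v' = π v := ⟨v, hv, rfl⟩
  rw [mvx, dif_pos h, hπ h.choose_spec.1 hv h.choose_spec.2]

/-- the chosen names -/
noncomputable def SS (π : Fin n → Fin P) (U : Set (Fin n)) (l : Fin P → ZMod 2) :
    Finset (Fin n) := Finset.univ.filter fun v => v ∈ U ∧ l (π v) = 1

theorem SS_sub (π : Fin n → Fin P) (U : Set (Fin n)) (l : Fin P → ZMod 2) :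
    ((SS π U l : Finset (Fin n)) : Set (Fin n)) ⊆ U := fun _ hv =>
  (Finset.mem_filter.1 (Finset.mem_coe.1 hv)).2.1

theorem z2_cases (z : ZMod 2) : z = 0 ∨ z = 1 := by revert z; decide

theorem sum_mvx {π : Fin n → Fin P} {U : Set (Fin n)} (hπ : Set.InjOn π U) (x : Fin n → Bool)
    (l : Fin P → ZMod 2) :
    ∑ p, l p * b2z (mvx π U x p) = dot (ind (SS π U l)) x := by
  have h1 : ∑ p, l p * b2z (mvx π U x p) = ∑ p ∈ (SS π U l).image π, l p * b2z (mvx π U x p) := by
    symm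
    refine Finset.sum_subset (Finset.subset_univ _) fun p _ hp => ?_
    by_cases h : ∃ v ∈ U, π v = p
    · obtain ⟨v, hv, rfl⟩ := h
      rcases z2_cases (l (π v)) with h0 | h0
      · rw [h0, zero_mul]
      · exact absurd (Finset.mem_image_of_mem π
          (Finset.mem_filter.2 ⟨Finset.mem_univ v, hv, h0⟩)) hp
    · rw [mvx, dif_neg h]
      simp [b2z]
  rw [h1, Finset.sum_image fun a ha b hb h =>
    hπ (SS_sub π U l (Finset.mem_coe.2 ha)) (SS_sub π U l (Finset.mem_coe.2 hb)) h]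
  unfold dot ind
  simp only [ite_mul, one_mul, zero_mul]
  rw [Finset.sum_ite_mem, Finset.univ_inter]
  refine Finset.sum_congr rfl fun v hv => ?_
  obtain ⟨-, hvU, hl⟩ := Finset.mem_filter.1 hv
  rw [hl, one_mul, mvx_apply hπ x hvU]

theorem dot_add (b b' : Fin n → ZMod 2) (x : Fin n → Bool) :
    dot (b + b') x = dot b x + dot b' x := by
  unfold dot
  rw [← Finset.sum_add_distrib]
  exact Finset.sum_congr rfl fun v _ => by rw [Pi.add_apply, add_mul]

theorem dot_comb (a : Fin ρ → Fin n → ZMod 2) (l : Fin ρ → ZMod 2) (x : Fin n → Bool) :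
    dot (comb a l) x = ∑ i, l i * dot (a i) x := by
  unfold dot comb
  simp only [Finset.sum_mul, Finset.mul_sum]
  rw [Finset.sum_comm]
  exact Finset.sum_congr rfl fun i _ => Finset.sum_congr rfl fun v _ => by ring

theorem hv_add (e w : ℕ) (b b' : Fin n → ZMod 2) :
    hv P e w (b + b') = hv P e w b + hv P e w b' := by
  funext u
  unfold hv
  rw [Pi.add_apply, ← Finset.sum_add_distrib]
  refine Finset.sum_congr rfl fun v _ => ?_
  split_ifs <;> simp

theorem hF_eq (e w : ℕ) (hP : 0 < P) (v : Fin n) (u : Fin P) :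
    hs P e w v = (u : ℕ) ↔ hF P e w hP v = u := by
  unfold hF
  rw [Fin.ext_iff]

/-- the hashed indicator -/
theorem hv_ind (e w : ℕ) (hP : 0 < P) (S : Finset (Fin n))
    (hS : Set.InjOn (hF (n := n) P e w hP) (S : Set (Fin n))) (u : Fin P) :
    hv P e w (ind S) u = if ∃ v ∈ S, hF P e w hP v = u then 1 else 0 := by
  unfold hv ind
  simp only [hF_eq e w hP]
  split_ifs with h
  · obtain ⟨v, hv, rfl⟩ := h
    rw [Finset.sum_eq_single v]
    · rw [if_pos rfl, if_pos hv]
    · intro v' _ hne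
      split_ifs with h1 h2
      · exact absurd (hS (Finset.mem_coe.2 h2) (Finset.mem_coe.2 hv) h1) hne
      · rfl
      · rfl
    · intro h0
      exact absurd (Finset.mem_univ v) h0
  · refine Finset.sum_eq_zero fun v _ => ?_
    split_ifs with h1 h2
    · exact absurd ⟨v, h2, h1⟩ h
    · rfl
    · rfl

theorem av_mul_left {Ω : Type} [Fintype Ω] (c : ℝ) (f : Ω → ℝ) :
    av (fun ω => c * f ω) = c * av f := by
  unfold av
  rw [← Finset.mul_sum, mul_div_assoc]

/-- the averages of the characters -/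
theorem char_av (hipc : IpcStmt) (Y : ℕ → Bool) (m e w u : ℕ) (hP : 0 < P)
    (b : Fin n → ZMod 2) :
    av (fun y : Fin (2 ^ m) => sg (dot b fun v => gb Y m P e y u w v)) =
      sg (∑ i : Fin m, tm Y m b i * b2z (bt u i)) *
        if tm Y m (hv P e w b) = 0 then 1 else 0 := by
  obtain ⟨-, h2, h3, -⟩ := hipc
  rw [← h3 m (tm Y m (hv P e w b)), ← av_mul_left]
  congr 1
  funext y
  rw [h2 Y m P e y u w n b hP, sg_add, mul_comm]

/-- the function of the coordinates -/
noncomputable def EE (F : (Fin r → Bool) → Bool → (Fin ρ → ZMod 2) → Bool) (t : ℕ) (k : ℝ)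
    (G : Fin r → DL (Fin P)) (c : Fin ρ → ZMod 2) (y : Fin P ⊕ Fin ρ → ZMod 2) : Prop :=
  F (fun j => ev (G j) fun p => z2b (y (Sum.inl p)))
    (decide (BadJ t k G fun p => z2b (y (Sum.inl p))))
    (fun i => y (Sum.inr i) + c i) = true

/-- the coordinates -/
noncomputable def XX (π : Fin n → Fin P) (U : Set (Fin n)) (a : Fin ρ → Fin n → ZMod 2)
    (x : Fin n → Bool) : Fin P ⊕ Fin ρ → ZMod 2 :=
  Sum.elim (fun p => b2z (mvx π U x p)) fun i => dot (a i) x

theorem ts_iff (F : (Fin r → Bool) → Bool → (Fin ρ → ZMod 2) → Bool) (t : ℕ) (k : ℝ)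
    (g : Fin r → DL (Fin n)) (a : Fin ρ → Fin n → ZMod 2) (c : Fin ρ → ZMod 2)
    (π : Fin n → Fin P) (hπ : Set.InjOn π (varsJ g)) (x : Fin n → Bool) :
    ts F t k g a c x ↔ EE F t k (fun j => ren π (g j)) c (XX π (varsJ g) a x) := by
  unfold ts EE XX
  simp only [Sum.elim_inl, Sum.elim_inr, z2b_b2z]
  have hag : ∀ v ∈ varsJ g, x v = mvx π (varsJ g) x (π v) := fun v hv =>
    (mvx_apply hπ x hv).symm
  have h1 : (fun j => ev (ren π (g j)) fun p => mvx π (varsJ g) x p) = fun j => ev (g j) x := by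
    rw [Pool.Agent.Helper89.JT.evJ_congr g hag]
    exact funext fun j => Pool.Agent.Helper81.DT.ev_ren π (g j) _
  have h2 : (BadJ t k (fun j => ren π (g j)) fun p => mvx π (varsJ g) x p) ↔ BadJ t k g x := by
    have h3 : (BadJ t k (fun j => ren π (g j)) fun p => mvx π (varsJ g) x p) ↔
        BadJ t k g fun v => mvx π (varsJ g) x (π v) := by
      unfold BadJ
      refine exists_congr fun j => ?_
      exact Pool.Agent.Helper81.DT.bad_ren Pool.Agent.Helper61.DT.trf π (g j) t k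
        (fun a ha b hb => hπ ⟨j, ha⟩ ⟨j, hb⟩) _
    rw [h3]
    exact ⟨Pool.Agent.Helper89.JT.badJ_imp fun v hv => (hag v hv).symm,
      Pool.Agent.Helper89.JT.badJ_imp hag⟩
  rw [h1, decide_eq_decide.2 h2]

theorem char_sum (π : Fin n → Fin P) {U : Set (Fin n)} (hπ : Set.InjOn π U)
    (a : Fin ρ → Fin n → ZMod 2) (x : Fin n → Bool) (l : Fin P ⊕ Fin ρ → ZMod 2) :
    ∑ i, l i * XX π U a x i =
      dot (comb a (fun i => l (Sum.inr i)) + ind (SS π U fun p => l (Sum.inl p))) x := by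
  rw [Fintype.sum_sum_type, dot_add, dot_comb, ← sum_mvx hπ x fun p => l (Sum.inl p), add_comm]
  rfl

theorem det (hipc : IpcStmt) (hlaw : LawStmt) (hinv : InvStmt) : DetStmt := by
  intro Y m P e D w n r ρ t k μ F g g' a c hP hw hg hg' hY hW hW' hren hVV u
  have hπ : Set.InjOn (hF (n := n) P e w hP) (varsJ g) := fun v hv v' hv' h =>
    hW.1 hv hv' (congrArg Fin.val h)
  have hπ' : Set.InjOn (hF (n := n) P e w hP) (varsJ g') := fun v hv v' hv' h =>
    hW'.1 hv hv' (congrArg Fin.val h)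
  -- the cells of the two tuples are the same
  have himg : ∀ p : Fin P, (∃ v ∈ varsJ g, hF P e w hP v = p) ↔
      ∃ v ∈ varsJ g', hF P e w hP v = p := by
    have h1 : ∀ (f : Fin r → DL (Fin n)) (p : Fin P), (∃ v ∈ varsJ f, hF P e w hP v = p) ↔
        ∃ j, p ∈ vars (ren (hF P e w hP) (f j)) := by
      intro f p
      constructor
      · rintro ⟨v, ⟨j, hj⟩, hv⟩
        exact ⟨j, (Pool.Agent.Helper81.DT.mem_vars_ren _ _ _).2 ⟨v, hj, hv⟩⟩
      · rintro ⟨j, hj⟩
        obtain ⟨v, hv, hvp⟩ := (Pool.Agent.Helper81.DT.mem_vars_ren _ _ _).1 hj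
        exact ⟨v, ⟨j, hv⟩, hvp⟩
    intro p
    rw [h1, h1]
    exact exists_congr fun j => by rw [hren j]
  unfold th
  have hG : (fun j => ren (hF P e w hP) (g j)) = fun j => ren (hF P e w hP) (g' j) :=
    funext hren
  have e1 : (fun y : Fin (2 ^ m) => ts F t k g a c fun v => gb Y m P e y u w v) = fun y : Fin (2 ^ m) =>
      EE F t k (fun j => ren (hF P e w hP) (g j)) c
        (XX (hF P e w hP) (varsJ g) a fun v => gb Y m P e y u w v) :=
    funext fun y => propext (ts_iff F t k g a c _ hπ _)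
  have e2 : (fun y : Fin (2 ^ m) => ts F t k g' a c fun v => gb Y m P e y u w v) = fun y : Fin (2 ^ m) =>
      EE F t k (fun j => ren (hF P e w hP) (g j)) c
        (XX (hF P e w hP) (varsJ g') a fun v => gb Y m P e y u w v) := by
    rw [hG]
    exact funext fun y => propext (ts_iff F t k g' a c _ hπ' _)
  rw [e1, e2]
  refine hlaw _ _ _ (fun y : Fin (2 ^ m) =>
      XX (hF P e w hP) (varsJ g) a fun v => gb Y m P e y u w v)
    (fun y : Fin (2 ^ m) => XX (hF P e w hP) (varsJ g') a fun v => gb Y m P e y u w v) ?_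
    (EE F t k (fun j => ren (hF P e w hP) (g j)) c)
  intro l
  simp only [char_sum _ hπ, char_sum _ hπ']
  rw [char_av hipc Y m e w u hP, char_av hipc Y m e w u hP]
  set S := SS (hF P e w hP) (varsJ g) fun p => l (Sum.inl p) with hS
  set S' := SS (hF P e w hP) (varsJ g') fun p => l (Sum.inl p) with hS'
  set lf : Fin ρ → ZMod 2 := fun i => l (Sum.inr i) with hlf
  have hSs : (S : Set (Fin n)) ⊆ varsJ g := SS_sub _ _ _
  have hSs' : (S' : Set (Fin n)) ⊆ varsJ g' := SS_sub _ _ _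
  have hhv : hv P e w (comb a lf + ind S) = hv P e w (comb a lf + ind S') := by
    rw [hv_add, hv_add]
    congr 1
    funext p
    rw [hv_ind e w hP S (hπ.mono hSs), hv_ind e w hP S' (hπ'.mono hSs')]
    refine if_congr ?_ rfl rfl
    constructor
    · rintro ⟨v, hv, rfl⟩
      obtain ⟨-, hv1, hv2⟩ := Finset.mem_filter.1 hv
      obtain ⟨v', hv1', hv2'⟩ := (himg _).1 ⟨v, hv1, rfl⟩
      exact ⟨v', Finset.mem_filter.2 ⟨Finset.mem_univ _, hv1', by rw [hv2']; exact hv2⟩, hv2'⟩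
    · rintro ⟨v, hv, rfl⟩
      obtain ⟨-, hv1, hv2⟩ := Finset.mem_filter.1 hv
      obtain ⟨v', hv1', hv2'⟩ := (himg _).2 ⟨v, hv1, rfl⟩
      exact ⟨v', Finset.mem_filter.2 ⟨Finset.mem_univ _, hv1', by rw [hv2']; exact hv2⟩, hv2'⟩
  rw [← hhv]
  obtain ⟨i1, i2, -⟩ := hinv Y m P e D w n ρ μ a (varsJ g) hw hg hY hW lf S hSs
  obtain ⟨-, i2', -⟩ := hinv Y m P e D w n ρ μ a (varsJ g') hw hg' hY hW' lf S' hSs'
  by_cases h0 : tm Y m (hv P e w (comb a lf + ind S)) = 0
  · have h1 := i1.1 h0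
    have hV := (i2 h1).1
    have hV' := (i2' (hhv ▸ h1)).1
    have hSS : S = S' := by
      ext v
      constructor
      · intro hv
        obtain ⟨-, hv1, hv2⟩ := Finset.mem_filter.1 hv
        exact Finset.mem_filter.2 ⟨Finset.mem_univ _, (hVV v (hV hv)).1 hv1, hv2⟩
      · intro hv
        obtain ⟨-, hv1, hv2⟩ := Finset.mem_filter.1 hv
        exact Finset.mem_filter.2 ⟨Finset.mem_univ _, (hVV v (hV' hv)).2 hv1, hv2⟩
    rw [hSS]
  · rw [if_neg h0, mul_zero, mul_zero]

end Pool.Agent.Helper54.AF
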